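import Mathlib
import Pool.Agent.V11294.SQ.Build
import Pool.Agent.V11294.SQ.TwoThree
import Pool.Agent.V11294.SQ.NoTwo
import Pool.Agent.V11294.SQ.Comp
set_option autoImplicit false

/-!
# Sequential labelings of disjoint unions of complete bipartite graphs (MP_c865f9_co)
-/

namespace Pool.Agent.Results.MP_c865f9_co.UnequalParts

open Finset

/-- The disjoint union `mK_{s,t}` of `m` copies of the complete bipartite graph `K_{s,t}`. -/
def mK (m s t : ℕ) : SimpleGraph (Fin m × (Fin s ⊕ Fin t)) where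
  Adj x y := x.1 = y.1 ∧ (completeBipartiteGraph (Fin s) (Fin t)).Adj x.2 y.2
  symm := ⟨fun _ _ h => ⟨h.1.symm, h.2.symm⟩⟩
  loopless := ⟨fun x h => (completeBipartiteGraph (Fin s) (Fin t)).loopless.irrefl x.2 h.2⟩

/-- The label `f u + f v` of the edge `uv`. -/
def edgeLabel {V : Type*} (f : V → ℕ) : Sym2 V → ℕ :=
  Sym2.lift ⟨fun u v => f u + f v, fun _ _ => Nat.add_comm _ _⟩

/-- `G` is sequential: with `q` the number of edges, there is an injective vertex labeling by
`0, …, q - 1` (by `0, …, q` if `G` is a tree) whose edge labels are exactly the `q` consecutive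
integers `c, …, c + q - 1` for some positive integer `c`. -/
def Sequential {V : Type*} (G : SimpleGraph V) : Prop :=
  ∃ (f : V → ℕ) (c : ℕ), Function.Injective f ∧ 0 < c ∧
    (∀ v, f v < G.edgeSet.ncard ∨ (G.IsTree ∧ f v ≤ G.edgeSet.ncard)) ∧
    Set.BijOn (edgeLabel f) G.edgeSet (Set.Ico c (c + G.edgeSet.ncard))

def phi (m s t : ℕ) (p : Fin m × Fin s × Fin t) : Sym2 (Fin m × (Fin s ⊕ Fin t)) :=
  s((p.1, Sum.inl p.2.1), (p.1, Sum.inr p.2.2))

lemma phi_inj (m s t : ℕ) : Function.Injective (phi m s t) := by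
  rintro ⟨i, j, k⟩ ⟨i', j', k'⟩ h
  simp only [phi, Sym2.eq_iff, Prod.mk.injEq, Sum.inl.injEq, Sum.inr.injEq, reduceCtorEq,
    and_false, or_false] at h
  obtain ⟨⟨h1, h2⟩, _, h3⟩ := h
  subst h1 h2 h3
  rfl

lemma range_phi (m s t : ℕ) : (mK m s t).edgeSet = Set.range (phi m s t) := by
  ext e
  induction e using Sym2.ind with
  | _ x y =>
    obtain ⟨i, x⟩ := x
    obtain ⟨j, y⟩ := y
    rw [SimpleGraph.mem_edgeSet]
    constructor
    · rintro ⟨h1, h2⟩
      simp only at h1
      subst h1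
      rcases x with x | x <;> rcases y with y | y
      · simp [completeBipartiteGraph] at h2
      · exact ⟨(i, x, y), rfl⟩
      · exact ⟨(i, y, x), Sym2.eq_swap⟩
      · simp [completeBipartiteGraph] at h2
    · rintro ⟨⟨i', j', k'⟩, h⟩
      simp only [phi, Sym2.eq_iff, Prod.mk.injEq] at h
      rcases h with ⟨⟨h1, h2⟩, h3, h4⟩ | ⟨⟨h1, h2⟩, h3, h4⟩
      · subst h1 h2 h4
        exact ⟨h3, by simp [completeBipartiteGraph]⟩
      · subst h1 h2 h4
        exact ⟨h3.symm, by simp [completeBipartiteGraph]⟩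

lemma card_edges (m s t : ℕ) : (mK m s t).edgeSet.ncard = m * s * t := by
  rw [range_phi, ← Set.image_univ, Set.ncard_image_of_injective _ (phi_inj m s t),
    Set.ncard_univ, Nat.card_eq_fintype_card]
  simp [mul_assoc]

lemma tree_params (m s t : ℕ) (h : (mK m s t).IsTree) : m * s * t + 1 = m * (s + t) := by
  have h1 := (SimpleGraph.isTree_iff_connected_and_card.1 h).2
  have h2 : Nat.card (mK m s t).edgeSet = m * s * t := by
    rw [← card_edges m s t]; rfl
  rw [h2] at h1
  rw [h1, Nat.card_eq_fintype_card]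
  simp

/-- Labelings with all labels below the number of edges. -/
def Core (m s t : ℕ) : Prop :=
  ∃ (A : Fin m → Fin s → ℕ) (B : Fin m → Fin t → ℕ) (c : ℕ), 0 < c ∧
    (∀ i j, A i j < m * s * t) ∧ (∀ i k, B i k < m * s * t) ∧
    (∀ i j i' j', A i j = A i' j' → i = i' ∧ j = j') ∧
    (∀ i k i' k', B i k = B i' k' → i = i' ∧ k = k') ∧
    (∀ i j i' k, A i j ≠ B i' k) ∧
    (∀ i j k, c ≤ A i j + B i k ∧ A i j + B i k < c + m * s * t) ∧
    (∀ x, c ≤ x → x < c + m * s * t → ∃ i j k, A i j + B i k = x)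

lemma core_symm (m s t : ℕ) (h : Core m s t) : Core m t s := by
  obtain ⟨A, B, c, h0, h1, h2, h3, h4, h5, h6, h7⟩ := h
  have e : m * t * s = m * s * t := by ring
  refine ⟨B, A, c, h0, ?_, ?_, h4, h3, fun i j i' k h => h5 i' k i j h.symm, ?_, ?_⟩
  · intro i k; rw [e]; exact h2 i k
  · intro i k; rw [e]; exact h1 i k
  · intro i j k; rw [e, add_comm (B i j)]; exact h6 i k j
  · intro x hx hx'
    rw [e] at hx'
    obtain ⟨i, j, k, h⟩ := h7 x hx hx'
    exact ⟨i, k, j, by rw [add_comm]; exact h⟩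

lemma bij_of (m s t : ℕ) (g : Fin m × Fin s × Fin t → ℕ) (c : ℕ)
    (h6 : ∀ p, c ≤ g p ∧ g p < c + m * s * t)
    (h7 : ∀ x, c ≤ x → x < c + m * s * t → ∃ p, g p = x) :
    Set.BijOn g Set.univ (Set.Ico c (c + m * s * t)) := by
  have himg : Finset.image g Finset.univ = Finset.Ico c (c + m * s * t) := by
    ext x
    simp only [Finset.mem_image, Finset.mem_univ, true_and, Finset.mem_Ico]
    constructor
    · rintro ⟨p, rfl⟩; exact h6 p
    · rintro ⟨h1, h2⟩; exact h7 x h1 h2
  have hcard : (Finset.image g Finset.univ).card = (Finset.univ : Finset (Fin m × Fin s × Fin t)).card := by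
    rw [himg]; simp [mul_assoc]
  have hinj := Finset.card_image_iff.1 hcard
  refine ⟨fun p _ => h6 p, ?_, fun x hx => ?_⟩
  · simpa using hinj
  · obtain ⟨p, hp⟩ := h7 x hx.1 hx.2
    exact ⟨p, trivial, hp⟩

lemma bijOn_edge (m s t : ℕ) (f : Fin m × (Fin s ⊕ Fin t) → ℕ) (T : Set ℕ) :
    Set.BijOn (edgeLabel f) (mK m s t).edgeSet T ↔
      Set.BijOn (fun p : Fin m × Fin s × Fin t =>
        f (p.1, Sum.inl p.2.1) + f (p.1, Sum.inr p.2.2)) Set.univ T := by
  have hphi : Set.BijOn (phi m s t) Set.univ (mK m s t).edgeSet := by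
    rw [range_phi, ← Set.image_univ]
    exact (phi_inj m s t).injOn.bijOn_image
  have hg : (fun p : Fin m × Fin s × Fin t =>
        f (p.1, Sum.inl p.2.1) + f (p.1, Sum.inr p.2.2)) = edgeLabel f ∘ phi m s t := by
    funext p; rfl
  rw [hg]
  constructor
  · intro h; exact h.comp hphi
  · intro h
    refine ⟨?_, ?_, ?_⟩
    · intro e he
      obtain ⟨p, _, rfl⟩ := hphi.surjOn he
      exact h.mapsTo trivial
    · intro e he e' he' hh
      obtain ⟨p, _, rfl⟩ := hphi.surjOn he
      obtain ⟨p', _, rfl⟩ := hphi.surjOn he'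
      rw [h.injOn trivial trivial hh]
    · intro x hx
      obtain ⟨p, _, hp⟩ := h.surjOn hx
      exact ⟨phi m s t p, hphi.mapsTo trivial, hp⟩

lemma seq_of_core (m s t : ℕ) (h : Core m s t) : Sequential (mK m s t) := by
  obtain ⟨A, B, c, h0, h1, h2, h3, h4, h5, h6, h7⟩ := h
  refine ⟨fun v => Sum.elim (A v.1) (B v.1) v.2, c, ?_, h0, ?_, ?_⟩
  · rintro ⟨i, x⟩ ⟨j, y⟩ h
    rcases x with x | x <;> rcases y with y | y <;> simp only [Sum.elim_inl, Sum.elim_inr] at h
    · obtain ⟨h1, h2⟩ := h3 _ _ _ _ h; subst h1 h2; rfl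
    · exact absurd h (h5 _ _ _ _)
    · exact absurd h.symm (h5 _ _ _ _)
    · obtain ⟨h1, h2⟩ := h4 _ _ _ _ h; subst h1 h2; rfl
  · rintro ⟨i, x⟩
    left
    rw [card_edges]
    rcases x with x | x
    · exact h1 i x
    · exact h2 i x
  · rw [card_edges, bijOn_edge]
    apply bij_of
    · rintro ⟨i, j, k⟩; exact h6 i j k
    · intro x hx hx'
      obtain ⟨i, j, k, h⟩ := h7 x hx hx'
      exact ⟨(i, j, k), h⟩

lemma core_of_lt (m s t : ℕ) (hm : 2 ≤ m) (hs : 2 ≤ s) (hst : s < t) (h23 : ¬ (s = 2 ∧ t = 3)) :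
    Core m s t := by
  obtain ⟨n, rfl⟩ : ∃ n, m = n + 1 := ⟨m - 1, by omega⟩
  refine V11294SQ.construct n s t (by omega) hs hst ?_
  obtain ⟨a, rfl⟩ := Nat.exists_eq_add_of_le hs
  obtain ⟨b, rfl⟩ := Nat.exists_eq_add_of_lt hst
  rcases Nat.eq_zero_or_pos a with ha | ha
  · subst ha
    have : 1 ≤ b := by omega
    omega
  · nlinarith

lemma not_tree (m s t : ℕ) (hm : 2 ≤ m) : ¬ (mK m s t).IsTree := by
  intro h
  have h1 := tree_params m s t h
  have h2 : m ∣ 1 := by
    have h3 : m ∣ m * s * t + 1 := ⟨s + t, h1⟩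
    have h4 : m ∣ m * s * t := ⟨s * t, by ring⟩
    exact (Nat.dvd_add_right h4).1 h3
  have := Nat.le_of_dvd one_pos h2
  omega

/-- Too few labels. -/
lemma not_seq_card (m s t : ℕ) (hm : 2 ≤ m) (h : m * s * t < m * (s + t)) :
    ¬ Sequential (mK m s t) := by
  rintro ⟨f, c, hf, _, hb, _⟩
  have hlt : ∀ v, f v < m * s * t := by
    intro v
    rcases hb v with h1 | h1
    · rwa [card_edges] at h1
    · exact absurd h1.1 (not_tree m s t hm)
  have h1 : Fintype.card (Fin m × (Fin s ⊕ Fin t)) ≤ Fintype.card (Fin (m * s * t)) :=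
    Fintype.card_le_of_injective (fun v => (⟨f v, hlt v⟩ : Fin (m * s * t))) (by
      intro v w hvw
      apply hf
      simpa using hvw)
  simp at h1
  omega

/-- One copy of `K_{s,t}` with `s, t ≥ 2`. -/
lemma not_seq_one (s t : ℕ) (hs : 2 ≤ s) (ht : 2 ≤ t) : ¬ Sequential (mK 1 s t) := by
  rintro ⟨f, c, hf, _, hb, hbij⟩
  have hlt : ∀ v, f v < s * t := by
    intro v
    rcases hb v with h1 | h1
    · rwa [card_edges, one_mul] at h1
    · exfalso
      have := tree_params 1 s t h1.1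
      nlinarith
  rw [bijOn_edge, card_edges, one_mul] at hbij
  have : NeZero s := ⟨by omega⟩
  have : NeZero t := ⟨by omega⟩
  set A : Fin s → ℕ := fun j => f (0, Sum.inl j) with hA
  set B : Fin t → ℕ := fun k => f (0, Sum.inr k) with hB
  have hAlt : ∀ j, A j < s * t := fun j => hlt _
  have hBlt : ∀ k, B k < s * t := fun k => hlt _
  have hAB : ∀ j k, A j ≠ B k := by
    intro j k h
    have := hf h
    simp at this
  obtain ⟨j1, _, hj1⟩ := Finset.exists_min_image (Finset.univ : Finset (Fin s)) A ⟨0, Finset.mem_univ _⟩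
  obtain ⟨j2, _, hj2⟩ := Finset.exists_max_image (Finset.univ : Finset (Fin s)) A ⟨0, Finset.mem_univ _⟩
  obtain ⟨k1, _, hk1⟩ := Finset.exists_min_image (Finset.univ : Finset (Fin t)) B ⟨0, Finset.mem_univ _⟩
  obtain ⟨k2, _, hk2⟩ := Finset.exists_max_image (Finset.univ : Finset (Fin t)) B ⟨0, Finset.mem_univ _⟩
  have hmaps : ∀ j k, c ≤ A j + B k ∧ A j + B k < c + s * t := fun j k =>
    hbij.mapsTo (x := ((0 : Fin 1), j, k)) trivial
  have hsurj : ∀ x, c ≤ x → x < c + s * t → ∃ j k, A j + B k = x := by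
    intro x h1 h2
    obtain ⟨⟨i, j, k⟩, _, h⟩ := hbij.surjOn ⟨h1, h2⟩
    refine ⟨j, k, ?_⟩
    have hi : i = 0 := Subsingleton.elim _ _
    subst hi
    exact h
  have hinj : ∀ j k j' k', A j + B k = A j' + B k' → j = j' ∧ k = k' := by
    intro j k j' k' h
    have := hbij.injOn (x₁ := ((0 : Fin 1), j, k)) (x₂ := ((0 : Fin 1), j', k')) trivial trivial h
    simp only [Prod.mk.injEq, true_and] at this
    exact this
  have hst : 4 ≤ s * t := by nlinarith
  have hspan : (A j2 + B k2) - (A j1 + B k1) = s * t - 1 ∧ A j1 + B k1 ≤ A j2 + B k2 := by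
    obtain ⟨j, k, h1⟩ := hsurj c le_rfl (by omega)
    obtain ⟨j', k', h2⟩ := hsurj (c + s * t - 1) (by omega) (by omega)
    have e1 := hj1 j (Finset.mem_univ _)
    have e2 := hk1 k (Finset.mem_univ _)
    have e3 := hj2 j' (Finset.mem_univ _)
    have e4 := hk2 k' (Finset.mem_univ _)
    have e5 := (hmaps j1 k1).1
    have e6 := (hmaps j2 k2).2
    omega
  -- the differences
  let D : Fin s × Fin t → ℤ := fun p => (A p.1 : ℤ) - B p.2
  have hDinj : Function.Injective D := by
    rintro ⟨j, k⟩ ⟨j', k'⟩ h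
    simp only [D] at h
    have h1 : A j + B k' = A j' + B k := by omega
    obtain ⟨h2, h3⟩ := hinj _ _ _ _ h1
    rw [h2, h3]
  have hDimg : Finset.image D Finset.univ = Finset.Icc ((A j1 : ℤ) - B k2) ((A j2 : ℤ) - B k1) := by
    apply Finset.eq_of_subset_of_card_le
    · intro x hx
      obtain ⟨⟨j, k⟩, _, rfl⟩ := Finset.mem_image.1 hx
      have e1 := hj1 j (Finset.mem_univ _)
      have e2 := hk1 k (Finset.mem_univ _)
      have e3 := hj2 j (Finset.mem_univ _)
      have e4 := hk2 k (Finset.mem_univ _)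
      simp only [Finset.mem_Icc, D]
      omega
    · rw [Finset.card_image_of_injective _ hDinj]
      simp only [Int.card_Icc, Finset.card_univ, Fintype.card_prod, Fintype.card_fin]
      omega
  have h0 : (0 : ℤ) ∈ Finset.image D Finset.univ := by
    rw [hDimg, Finset.mem_Icc]
    have e1 := hAlt j2
    have e2 := hBlt k2
    have e3 := hj1 j2 (Finset.mem_univ _)
    have e4 := hk1 k2 (Finset.mem_univ _)
    omega
  obtain ⟨⟨j, k⟩, _, h⟩ := Finset.mem_image.1 h0
  simp only [D] at h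
  exact hAB j k (by omega)

/-- The parity obstruction for copies of `K_{2,2}`. -/
lemma not_seq_two (m : ℕ) (hm : 2 ≤ m) : ¬ Sequential (mK m 2 2) := by
  rintro ⟨f, c, hf, _, hb, hbij⟩
  have hlt : ∀ v, f v < m * 2 * 2 := by
    intro v
    rcases hb v with h1 | h1
    · rwa [card_edges] at h1
    · exact absurd h1.1 (not_tree m 2 2 hm)
  rw [bijOn_edge, card_edges] at hbij
  have himg : Finset.image f Finset.univ = Finset.range (m * 2 * 2) := by
    apply Finset.eq_of_subset_of_card_le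
    · intro x hx
      obtain ⟨v, _, rfl⟩ := Finset.mem_image.1 hx
      exact Finset.mem_range.2 (hlt v)
    · rw [Finset.card_image_of_injective _ hf]
      simp
      omega
  have hS : ∑ v, f v = ∑ x ∈ Finset.range (m * 2 * 2), x := by
    rw [← himg, Finset.sum_image (fun x _ y _ h => hf h)]
  have hT : ∑ p : Fin m × Fin 2 × Fin 2, (f (p.1, Sum.inl p.2.1) + f (p.1, Sum.inr p.2.2)) =
      ∑ x ∈ Finset.Ico c (c + m * 2 * 2), x := by
    apply Finset.sum_bij (fun p _ => f (p.1, Sum.inl p.2.1) + f (p.1, Sum.inr p.2.2))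
    · intro p _
      exact Finset.mem_Ico.2 (hbij.mapsTo trivial)
    · intro p _ p' _ h
      exact hbij.injOn trivial trivial h
    · intro x hx
      obtain ⟨p, _, h⟩ := hbij.surjOn (Finset.mem_Ico.1 hx)
      exact ⟨p, Finset.mem_univ _, h⟩
    · intro p _; rfl
  have hU : ∑ p : Fin m × Fin 2 × Fin 2, (f (p.1, Sum.inl p.2.1) + f (p.1, Sum.inr p.2.2)) =
      2 * ∑ v, f v := by
    simp only [Fintype.sum_prod_type, Fintype.sum_sum_type, Fin.sum_univ_two]
    rw [Finset.mul_sum]
    apply Finset.sum_congr rfl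
    intro i _
    ring
  have hI : ∑ x ∈ Finset.Ico c (c + m * 2 * 2), x =
      (m * 2 * 2) * c + ∑ x ∈ Finset.range (m * 2 * 2), x := by
    rw [Finset.sum_Ico_eq_sum_range, Nat.add_sub_cancel_left, Finset.sum_add_distrib,
      Finset.sum_const, Finset.card_range, smul_eq_mul]
  have hG := Finset.sum_range_id_mul_two (m * 2 * 2)
  rw [hU, hS, hI] at hT
  have h1 : ∑ x ∈ Finset.range (m * 2 * 2), x = (m * 2 * 2) * c := by omega
  rw [h1] at hG
  have h2 : c * 2 = m * 2 * 2 - 1 := by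
    apply Nat.eq_of_mul_eq_mul_left (show 0 < m * 2 * 2 by omega)
    rw [← hG]; ring
  omega

lemma isTree_left (t : ℕ) (ht : 1 ≤ t) : (mK 1 1 t).IsTree := by
  rw [SimpleGraph.isTree_iff_connected_and_card]
  refine ⟨?_, ?_⟩
  · have hc : ∀ v, (mK 1 1 t).Reachable (0, Sum.inl 0) v := by
      rintro ⟨i, x⟩
      have hi : i = 0 := Subsingleton.elim _ _
      subst hi
      rcases x with x | x
      · have hx : x = 0 := Subsingleton.elim _ _
        subst hx
        exact SimpleGraph.Reachable.refl _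
      · exact SimpleGraph.Adj.reachable ⟨rfl, by simp [completeBipartiteGraph]⟩
    have : Nonempty (Fin 1 × (Fin 1 ⊕ Fin t)) := ⟨(0, Sum.inl 0)⟩
    exact SimpleGraph.Connected.mk (fun u v => (hc u).symm.trans (hc v))
  · have h2 : Nat.card (mK 1 1 t).edgeSet = 1 * 1 * t := by
      rw [← card_edges 1 1 t]; rfl
    rw [h2, Nat.card_eq_fintype_card]
    simp
    omega

lemma isTree_right (s : ℕ) (hs : 1 ≤ s) : (mK 1 s 1).IsTree := by
  rw [SimpleGraph.isTree_iff_connected_and_card]
  refine ⟨?_, ?_⟩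
  · have hc : ∀ v, (mK 1 s 1).Reachable (0, Sum.inr 0) v := by
      rintro ⟨i, x⟩
      have hi : i = 0 := Subsingleton.elim _ _
      subst hi
      rcases x with x | x
      · exact SimpleGraph.Adj.reachable ⟨rfl, by simp [completeBipartiteGraph]⟩
      · have hx : x = 0 := Subsingleton.elim _ _
        subst hx
        exact SimpleGraph.Reachable.refl _
    have : Nonempty (Fin 1 × (Fin s ⊕ Fin 1)) := ⟨(0, Sum.inr 0)⟩
    exact SimpleGraph.Connected.mk (fun u v => (hc u).symm.trans (hc v))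
  · have h2 : Nat.card (mK 1 s 1).edgeSet = 1 * s * 1 := by
      rw [← card_edges 1 s 1]; rfl
    rw [h2, Nat.card_eq_fintype_card]
    simp

lemma seq_left (t : ℕ) (ht : 1 ≤ t) : Sequential (mK 1 1 t) := by
  refine ⟨fun v => Sum.elim (fun _ => 0) (fun k : Fin t => (k : ℕ) + 1) v.2, 1, ?_, one_pos, ?_, ?_⟩
  · rintro ⟨i, x⟩ ⟨j, y⟩ h
    have hij : i = j := Subsingleton.elim _ _
    subst hij
    rcases x with x | x <;> rcases y with y | y <;>
      simp only [Sum.elim_inl, Sum.elim_inr] at h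
    · have : x = y := Subsingleton.elim _ _
      rw [this]
    · omega
    · omega
    · have : x = y := Fin.ext (by omega)
      rw [this]
  · rintro ⟨i, x⟩
    right
    refine ⟨isTree_left t ht, ?_⟩
    rw [card_edges]
    rcases x with x | x
    · simp
    · simp only [Sum.elim_inr]
      have := x.2
      omega
  · rw [card_edges, bijOn_edge]
    apply bij_of
    · rintro ⟨i, j, k⟩
      have := k.2
      simp only [Sum.elim_inl, Sum.elim_inr]
      omega
    · intro x hx hx'
      refine ⟨(0, 0, ⟨x - 1, by omega⟩), ?_⟩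
      simp only [Sum.elim_inl, Sum.elim_inr]
      omega

lemma seq_right (s : ℕ) (hs : 1 ≤ s) : Sequential (mK 1 s 1) := by
  refine ⟨fun v => Sum.elim (fun j : Fin s => (j : ℕ) + 1) (fun _ => 0) v.2, 1, ?_, one_pos, ?_, ?_⟩
  · rintro ⟨i, x⟩ ⟨j, y⟩ h
    have hij : i = j := Subsingleton.elim _ _
    subst hij
    rcases x with x | x <;> rcases y with y | y <;>
      simp only [Sum.elim_inl, Sum.elim_inr] at h
    · have : x = y := Fin.ext (by omega)
      rw [this]
    · omega
    · omega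
    · have : x = y := Subsingleton.elim _ _
      rw [this]
  · rintro ⟨i, x⟩
    right
    refine ⟨isTree_right s hs, ?_⟩
    rw [card_edges]
    rcases x with x | x
    · simp only [Sum.elim_inl]
      have := x.2
      omega
    · simp
  · rw [card_edges, bijOn_edge]
    apply bij_of
    · rintro ⟨i, j, k⟩
      have := j.2
      simp only [Sum.elim_inl, Sum.elim_inr]
      omega
    · intro x hx hx'
      refine ⟨(0, ⟨x - 1, by omega⟩, 0), ?_⟩
      simp only [Sum.elim_inl, Sum.elim_inr]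
      omega

lemma core_of_seq (m s t : ℕ) (hm : 2 ≤ m) (h : Sequential (mK m s t)) : Core m s t := by
  obtain ⟨f, c, hf, h0, hb, hbij⟩ := h
  have hlt : ∀ v, f v < m * s * t := by
    intro v
    rcases hb v with h1 | h1
    · rwa [card_edges] at h1
    · exact absurd h1.1 (not_tree m s t hm)
  rw [bijOn_edge, card_edges] at hbij
  refine ⟨fun i j => f (i, Sum.inl j), fun i k => f (i, Sum.inr k), c, h0, fun i j => hlt _,
    fun i k => hlt _, ?_, ?_, ?_, ?_, ?_⟩
  · intro i j i' j' h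
    have := hf h
    simpa using this
  · intro i j i' j' h
    have := hf h
    simpa using this
  · intro i j i' k h
    have := hf h
    simp at this
  · intro i j k
    exact hbij.mapsTo (x := (i, j, k)) trivial
  · intro x hx hx'
    obtain ⟨⟨i, j, k⟩, _, h⟩ := hbij.surjOn ⟨hx, hx'⟩
    exact ⟨i, j, k, h⟩

lemma not_core_223 : ¬ Core 2 2 3 := by
  rintro ⟨A, B, c, h0, h1, h2, h3, h4, h5, h6, h7⟩
  have hbij := bij_of 2 2 3 (fun p => A p.1 p.2.1 + B p.1 p.2.2) c
    (fun p => h6 p.1 p.2.1 p.2.2) (fun x hx hx' => by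
      obtain ⟨i, j, k, h⟩ := h7 x hx hx'
      exact ⟨(i, j, k), h⟩)
  have hinj := hbij.injOn
  obtain ⟨i0, j0, k0, hc⟩ := h7 c le_rfl (by omega)
  set π : Equiv.Perm (Fin 2) := Equiv.swap 0 i0 with hπ
  have hπ0 : π 0 = i0 := Equiv.swap_apply_left _ _
  set σ : Fin 2 → Equiv.Perm (Fin 2) := fun i => Tuple.sort (A i) with hσ
  set τ : Fin 2 → Equiv.Perm (Fin 3) := fun i => Tuple.sort (B i) with hτ
  have hmA : ∀ i, Monotone (fun j => A i (σ i j)) := fun i => Tuple.monotone_sort (A i)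
  have hmB : ∀ i, Monotone (fun j => B i (τ i j)) := fun i => Tuple.monotone_sort (B i)
  have hsA : ∀ i (j j' : Fin 2), j < j' → A i (σ i j) < A i (σ i j') := by
    intro i j j' hj
    refine lt_of_le_of_ne (hmA i hj.le) fun h => ?_
    have := (σ i).injective (h3 _ _ _ _ h).2
    exact absurd this hj.ne
  have hsB : ∀ i (j j' : Fin 3), j < j' → B i (τ i j) < B i (τ i j') := by
    intro i j j' hj
    refine lt_of_le_of_ne (hmB i hj.le) fun h => ?_
    have := (τ i).injective (h4 _ _ _ _ h).2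
    exact absurd this hj.ne
  refine V11294SQ.no223 (fun i j => A (π i) (σ (π i) j)) (fun i k => B (π i) (τ (π i) k)) c
    (fun i => hsA _ _ _ (by decide)) (fun i => hsB _ _ _ (by decide))
    (fun i => hsB _ _ _ (by decide)) (fun i j => h1 _ _) (fun i k => h2 _ _) ?_ ?_
    (fun i j k => h6 _ _ _) ?_
  · rintro ⟨i, x⟩ ⟨i', y⟩ h
    rcases x with x | x <;> rcases y with y | y <;> simp only [Sum.elim_inl, Sum.elim_inr] at h
    · obtain ⟨e1, e2⟩ := h3 _ _ _ _ h
      have e3 := π.injective e1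
      subst e3
      rw [(σ (π i)).injective e2]
    · exact absurd h (h5 _ _ _ _)
    · exact absurd h.symm (h5 _ _ _ _)
    · obtain ⟨e1, e2⟩ := h4 _ _ _ _ h
      have e3 := π.injective e1
      subst e3
      rw [(τ (π i)).injective e2]
  · rintro ⟨i, j, k⟩ ⟨i', j', k'⟩ h
    have h' := hinj (x₁ := (π i, σ (π i) j, τ (π i) k)) (x₂ := (π i', σ (π i') j', τ (π i') k'))
      trivial trivial h
    simp only [Prod.mk.injEq] at h'
    obtain ⟨e1, e2, e3⟩ := h'
    have e4 := π.injective e1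
    subst e4
    rw [(σ (π i)).injective e2, (τ (π i)).injective e3]
  · show A (π 0) (σ (π 0) 0) + B (π 0) (τ (π 0) 0) = c
    rw [hπ0]
    have e1 : A i0 (σ i0 0) ≤ A i0 j0 := by
      have := hmA i0 (Fin.zero_le ((σ i0).symm j0))
      simpa using this
    have e2 : B i0 (τ i0 0) ≤ B i0 k0 := by
      have := hmB i0 (Fin.zero_le ((τ i0).symm k0))
      simpa using this
    have e3 := (h6 i0 (σ i0 0) (τ i0 0)).1
    omega

lemma core_comp (m s : ℕ) (hm : 2 ≤ m) (hs : 2 ≤ s) (hp : ¬ s.Prime) : Core m s s := by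
  obtain ⟨n, rfl⟩ : ∃ n, m = n + 1 := ⟨m - 1, by omega⟩
  obtain ⟨v, hv⟩ := Nat.minFac_dvd s
  have hu : 2 ≤ s.minFac := (Nat.minFac_prime (by omega)).two_le
  refine V11294SQ.construct_comp n s.minFac v s (by omega) hu ?_ hv
  by_contra hc
  rcases (show v = 0 ∨ v = 1 by omega) with rfl | rfl
  · omega
  · apply hp
    rw [mul_one] at hv
    rw [hv]
    exact Nat.minFac_prime (by omega)

/-- **Sequential labelings of `mK_{s,t}`: unequal parts, and equal parts of non-prime size.** -/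
theorem result :
    -- one copy
    (∀ s t : ℕ, 1 ≤ s → 1 ≤ t → (Sequential (mK 1 s t) ↔ s = 1 ∨ t = 1)) ∧
    -- at least two copies, unequal parts
    (∀ m s t : ℕ, 2 ≤ m → 1 ≤ s → 1 ≤ t → s ≠ t →
      (Sequential (mK m s t) ↔
        2 ≤ s ∧ 2 ≤ t ∧ ¬ (m = 2 ∧ s = 2 ∧ t = 3) ∧ ¬ (m = 2 ∧ s = 3 ∧ t = 2))) ∧
    -- at least two copies of `K_{1,1}` or of `K_{2,2}`
    (∀ m : ℕ, 2 ≤ m → ¬ Sequential (mK m 1 1) ∧ ¬ Sequential (mK m 2 2)) ∧
    -- at least two copies, equal parts of composite size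
    (∀ m s : ℕ, 2 ≤ m → 2 ≤ s → ¬ s.Prime → Sequential (mK m s s)) := by
  refine ⟨?_, ?_, ?_, fun m s hm hs hp => seq_of_core m s s (core_comp m s hm hs hp)⟩
  · intro s t hs ht
    constructor
    · intro h
      by_contra hc
      exact not_seq_one s t (by omega) (by omega) h
    · rintro (rfl | rfl)
      · exact seq_left t ht
      · exact seq_right s hs
  · intro m s t hm hs ht hne
    constructor
    · intro h
      have hs2 : 2 ≤ s := by
        by_contra hc
        obtain rfl : s = 1 := by omega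
        refine not_seq_card m 1 t hm ?_ h
        nlinarith
      have ht2 : 2 ≤ t := by
        by_contra hc
        obtain rfl : t = 1 := by omega
        refine not_seq_card m s 1 hm ?_ h
        nlinarith
      refine ⟨hs2, ht2, ?_, ?_⟩
      · rintro ⟨rfl, rfl, rfl⟩
        exact not_core_223 (core_of_seq 2 2 3 le_rfl h)
      · rintro ⟨rfl, rfl, rfl⟩
        exact not_core_223 (core_symm 2 3 2 (core_of_seq 2 3 2 le_rfl h))
    · rintro ⟨hs2, ht2, h1, h2⟩
      rcases lt_or_gt_of_ne hne with hlt | hlt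
      · by_cases h23 : s = 2 ∧ t = 3
        · obtain ⟨rfl, rfl⟩ := h23
          exact seq_of_core m 2 3 (V11294SQ.lab23 m (by omega))
        · exact seq_of_core m s t (core_of_lt m s t hm hs2 hlt h23)
      · by_cases h23 : t = 2 ∧ s = 3
        · obtain ⟨rfl, rfl⟩ := h23
          exact seq_of_core m 3 2 (core_symm m 2 3 (V11294SQ.lab23 m (by omega)))
        · exact seq_of_core m s t (core_symm m t s (core_of_lt m t s hm ht2 hlt h23))
  · intro m hm
    exact ⟨not_seq_card m 1 1 hm (by nlinarith), not_seq_two m hm⟩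

end Pool.Agent.Results.MP_c865f9_co.UnequalParts
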